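import Pool.Agent.R14.MC.Defs

set_option autoImplicit false

/-!
Project MC, piece A: a covering design gives a weight on types.
-/

namespace R14.MC.A

open R14.MC Finset

variable {v d : ℕ} (B : Fin d → Finset (Fin v))

/-- the weight -/
def wt (S : Finset (Fin d)) : ℚ := ((univ.filter (fun x => typ B x = S)).card : ℚ) / v

theorem sum_wt (p : Finset (Fin d) → Prop) [DecidablePred p] :
    (∑ S ∈ univ.filter (fun S => p S), wt B S) =
      ((univ.filter (fun x => p (typ B x))).card : ℚ) / v := by
  unfold wt
  rw [← Finset.sum_div]
  congr 1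
  have h : (univ.filter (fun x => p (typ B x))).card =
      ∑ S ∈ univ.filter (fun S => p S), ((univ.filter (fun x => p (typ B x))).filter (fun x => typ B x = S)).card := by
    apply Finset.card_eq_sum_card_fiberwise
    intro x hx
    simp only [Finset.coe_filter, Finset.mem_univ, true_and, Set.mem_ofPred_eq] at hx ⊢
    exact hx
  rw [h]
  push_cast
  apply Finset.sum_congr rfl
  intro S hS
  congr 2
  ext x
  simp only [Finset.mem_filter, Finset.mem_univ, true_and] at hS ⊢
  constructor
  · rintro rfl
    exact ⟨hS, rfl⟩
  · rintro ⟨-, h⟩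
    exact h

theorem main : StmA := by
  intro v k d B hv hB
  have hv0 : (0 : ℚ) < v := by exact_mod_cast (by omega : 0 < v)
  have hdeg : ∀ i, deg (wt B) i = (k : ℚ) / v := by
    intro i
    unfold deg
    rw [sum_wt B (fun S => i ∈ S)]
    congr 2
    rw [← hB.card i]
    congr 1
    ext x
    simp [typ]
  refine ⟨wt B, ⟨?_, ?_, ?_, ?_⟩, hdeg, ?_⟩
  · intro S
    unfold wt
    positivity
  · have h := sum_wt B (fun _ => True)
    simp only [Finset.filter_true, Finset.card_univ, Fintype.card_fin] at h
    rw [h]
    exact div_self hv0.ne'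
  · intro S T hS hT
    have hS' : ∃ x, typ B x = S := by
      by_contra hcon
      push Not at hcon
      have : (univ.filter (fun x => typ B x = S)) = ∅ := by
        ext x
        simp [hcon x]
      unfold wt at hS
      rw [this] at hS
      simp at hS
    have hT' : ∃ x, typ B x = T := by
      by_contra hcon
      push Not at hcon
      have : (univ.filter (fun x => typ B x = T)) = ∅ := by
        ext x
        simp [hcon x]
      unfold wt at hT
      rw [this] at hT
      simp at hT
    obtain ⟨x, rfl⟩ := hS'
    obtain ⟨y, rfl⟩ := hT'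
    by_cases hxy : x = y
    · subst hxy
      have : ∃ z : Fin v, x ≠ z := by
        have : Nontrivial (Fin v) := Fin.nontrivial_iff_two_le.mpr hv
        exact (exists_ne x).imp (fun z hz => hz.symm)
      obtain ⟨z, hz⟩ := this
      obtain ⟨i, hi, -⟩ := hB.cover x z hz
      refine ⟨i, ?_⟩
      simp [typ, hi]
    · obtain ⟨i, hi, hj⟩ := hB.cover x y hxy
      refine ⟨i, ?_⟩
      simp [typ, hi, hj]
  · intro i
    exact (hdeg i).le
  · intro J
    exact sum_wt B (fun S => S ⊆ J)

end R14.MC.A
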