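import Pool.Agent.R14.MC.Defs

set_option autoImplicit false

/-! Project MC, piece B (helper160): a rational weight gives a covering design. -/

namespace R14.MC.B

open R14.MC Finset

lemma nat_of (q : ℚ) (hq : 0 ≤ q) (v : ℕ) (h : q.den ∣ v) : ∃ n : ℕ, (n : ℚ) = q * v := by
  obtain ⟨m, rfl⟩ := h
  refine ⟨q.num.toNat * m, ?_⟩
  have h1 : ((q.num.toNat : ℕ) : ℤ) = q.num := Int.toNat_of_nonneg (Rat.num_nonneg.2 hq)
  have h2 : ((q.num.toNat : ℕ) : ℚ) = (q.num : ℚ) := by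
    rw [← Int.cast_natCast, h1]
  have h3 : (q.num : ℚ) = q * q.den := (Rat.mul_den_eq_num q).symm
  push_cast
  rw [h2, h3]
  ring

theorem main : StmB := by
  intro d ρ hd hG
  obtain ⟨w, hw⟩ := hG
  by_cases hρ1 : 1 ≤ ρ
  · refine ⟨2, 2, fun _ => univ, le_refl _, le_refl _,
      ⟨fun i => by simp, fun x y _ => ⟨⟨0, hd⟩, by simp, by simp⟩⟩, ?_⟩
    have h2 : ((2 : ℕ) : ℚ) / ((2 : ℕ) : ℚ) = 1 := by norm_num
    rw [h2]
    exact hρ1
  rw [not_le] at hρ1
  have hS : ∃ S, 0 < w S := by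
    by_contra hcon
    push Not at hcon
    have h1 : ∑ S, w S ≤ 0 := Finset.sum_nonpos fun S _ => hcon S
    rw [hw.sum] at h1
    exact absurd h1 (by norm_num)
  obtain ⟨S0, hS0⟩ := hS
  obtain ⟨i0, hi0⟩ := hw.inter S0 S0 hS0 hS0
  rw [Finset.inter_self] at hi0
  have hρ0 : 0 < ρ := by
    refine lt_of_lt_of_le hS0 (le_trans ?_ (hw.deg_le i0))
    unfold deg
    exact Finset.single_le_sum (f := w) (fun S _ => hw.nonneg S)
      (Finset.mem_filter.2 ⟨Finset.mem_univ _, hi0⟩)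
  obtain ⟨v', hv'def⟩ : ∃ v' : ℕ, v' = ρ.den * ∏ S, (w S).den := ⟨_, rfl⟩
  have hv' : 0 < v' := by
    rw [hv'def]
    exact Nat.mul_pos ρ.den_pos (Finset.prod_pos fun S _ => (w S).den_pos)
  obtain ⟨k', hk'⟩ : ∃ k' : ℕ, (k' : ℚ) = ρ * v' :=
    nat_of ρ hρ0.le v' (by rw [hv'def]; exact dvd_mul_right _ _)
  have hv'q : (0 : ℚ) < (v' : ℚ) := by exact_mod_cast hv'
  have hk'0 : 0 < k' := by
    have h1 : (0 : ℚ) < (k' : ℚ) := by
      rw [hk']
      exact mul_pos hρ0 hv'q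
    exact_mod_cast h1
  have hn : ∀ S, ∃ n : ℕ, (n : ℚ) = w S * ((2 * v' : ℕ) : ℚ) := fun S =>
    nat_of _ (hw.nonneg S) _ (by
      rw [hv'def]
      exact Dvd.dvd.mul_left (Dvd.dvd.mul_left
        (Finset.dvd_prod_of_mem (fun S => (w S).den) (Finset.mem_univ S)) _) _)
  choose n hn using hn
  have hsum : ∑ S, n S = 2 * v' := by
    have h1 : ((∑ S, n S : ℕ) : ℚ) = ((2 * v' : ℕ) : ℚ) := by
      rw [Nat.cast_sum]
      calc ∑ S, (n S : ℚ) = ∑ S, w S * ((2 * v' : ℕ) : ℚ) :=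
            Finset.sum_congr rfl fun S _ => hn S
        _ = ((2 * v' : ℕ) : ℚ) := by rw [← Finset.sum_mul, hw.sum, one_mul]
    exact_mod_cast h1
  have hcard : Fintype.card (Fin (2 * v')) = Fintype.card (Σ S : Finset (Fin d), Fin (n S)) := by
    rw [Fintype.card_fin, Fintype.card_sigma]
    simp only [Fintype.card_fin]
    exact hsum.symm
  obtain ⟨e⟩ : Nonempty (Fin (2 * v') ≃ Σ S : Finset (Fin d), Fin (n S)) :=
    ⟨Fintype.equivOfCardEq hcard⟩
  have hpos : ∀ x, 0 < w (e x).1 := by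
    intro x
    have h1 : 0 < n (e x).1 := Fin.pos (e x).2
    have h2 : (0 : ℚ) < (n (e x).1 : ℚ) := by exact_mod_cast h1
    rw [hn] at h2
    by_contra hcon
    have h3 : w (e x).1 = 0 := le_antisymm (not_lt.1 hcon) (hw.nonneg _)
    rw [h3, zero_mul] at h2
    exact lt_irrefl _ h2
  have hfib : ∀ i : Fin d, (univ.filter (fun x : Fin (2 * v') => i ∈ (e x).1)).card ≤ 2 * k' := by
    intro i
    have h1 : (univ.filter (fun x : Fin (2 * v') => i ∈ (e x).1)).card =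
        ∑ S ∈ univ.filter (fun S : Finset (Fin d) => i ∈ S), n S := by
      rw [Finset.card_filter, Equiv.sum_comp e (fun p => if i ∈ p.1 then 1 else 0),
        Fintype.sum_sigma, Finset.sum_filter]
      refine Finset.sum_congr rfl fun S _ => ?_
      by_cases hiS : i ∈ S
      · simp [hiS]
      · simp [hiS]
    have h2 : ((univ.filter (fun x : Fin (2 * v') => i ∈ (e x).1)).card : ℚ) ≤
        ((2 * k' : ℕ) : ℚ) := by
      rw [h1, Nat.cast_sum]
      calc ∑ S ∈ univ.filter (fun S : Finset (Fin d) => i ∈ S), (n S : ℚ)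
          = ∑ S ∈ univ.filter (fun S : Finset (Fin d) => i ∈ S), w S * ((2 * v' : ℕ) : ℚ) :=
            Finset.sum_congr rfl fun S _ => hn S
        _ = deg w i * ((2 * v' : ℕ) : ℚ) := by rw [← Finset.sum_mul]; rfl
        _ ≤ ρ * ((2 * v' : ℕ) : ℚ) :=
            mul_le_mul_of_nonneg_right (hw.deg_le i) (Nat.cast_nonneg _)
        _ = ((2 * k' : ℕ) : ℚ) := by
            push_cast
            rw [hk']
            ring
    exact_mod_cast h2
  have hkv : 2 * k' ≤ 2 * v' := by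
    have h1 : (k' : ℚ) ≤ (v' : ℚ) := by
      rw [hk']
      nlinarith [hρ1, hv'q]
    have h2 : k' ≤ v' := by exact_mod_cast h1
    omega
  have hB : ∀ i : Fin d, ∃ t : Finset (Fin (2 * v')),
      univ.filter (fun x : Fin (2 * v') => i ∈ (e x).1) ⊆ t ∧ t.card = 2 * k' := fun i =>
    Finset.exists_superset_card_eq (hfib i) (by rw [Fintype.card_fin]; exact hkv)
  choose B hB1 hB2 using hB
  refine ⟨2 * v', 2 * k', B, by omega, by omega, ⟨hB2, ?_⟩, ?_⟩
  · intro x y _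
    obtain ⟨i, hi⟩ := hw.inter _ _ (hpos x) (hpos y)
    rw [Finset.mem_inter] at hi
    exact ⟨i, hB1 i (Finset.mem_filter.2 ⟨Finset.mem_univ _, hi.1⟩),
      hB1 i (Finset.mem_filter.2 ⟨Finset.mem_univ _, hi.2⟩)⟩
  · apply le_of_eq
    push_cast
    rw [hk']
    field_simp

end R14.MC.B
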