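import Pool.Agent.R14.MC.Defs

set_option autoImplicit false

/-! MC-C: the minimum is attained at a rational point. -/

namespace R14.MC.C

open R14.MC Finset

variable {d : ℕ}

/-- the coordinates and the slacks -/
def vec (w : Finset (Fin d) → ℚ) (ρ : ℚ) : Finset (Fin d) ⊕ Fin d → ℚ :=
  Sum.elim w (fun i => ρ - deg w i)

/-- the pattern: the nonzero coordinates -/
def pat (w : Finset (Fin d) → ℚ) (ρ : ℚ) : Finset (Finset (Fin d) ⊕ Fin d) :=
  univ.filter (fun j => vec w ρ j ≠ 0)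

theorem deg_lin (w g : Finset (Fin d) → ℚ) (s : ℚ) (i : Fin d) :
    deg (fun S => w S + s * g S) i = deg w i + s * deg g i := by
  unfold deg
  rw [sum_add_distrib, mul_sum]

theorem vec_lin (w g : Finset (Fin d) → ℚ) (ρ r s : ℚ) (j : Finset (Fin d) ⊕ Fin d) :
    vec (fun S => w S + s * g S) (ρ + s * r) j = vec w ρ j + s * vec g r j := by
  cases j with
  | inl S => rfl
  | inr i =>
    change (ρ + s * r) - deg (fun S => w S + s * g S) i = (ρ - deg w i) + s * (r - deg g i)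
    rw [deg_lin]
    ring

/-- moving until a coordinate vanishes -/
theorem line {ι : Type} [Fintype ι] (c e : ι → ℚ) (hc : ∀ i, 0 ≤ c i)
    (he : ∀ i, c i = 0 → e i = 0) (hneg : ∃ i, e i < 0) :
    ∃ s, 0 < s ∧ (∀ i, 0 ≤ c i + s * e i) ∧ ∃ i, c i ≠ 0 ∧ c i + s * e i = 0 := by
  classical
  obtain ⟨i0, hi0⟩ := hneg
  obtain ⟨i, hi, hmin⟩ := exists_min_image (univ.filter (fun i => e i < 0))
    (fun i => c i / (-e i)) ⟨i0, mem_filter.mpr ⟨mem_univ _, hi0⟩⟩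
  have hi' := (mem_filter.mp hi).2
  have hci : c i ≠ 0 := fun h => by
    rw [he i h] at hi'
    exact lt_irrefl _ hi'
  have hci' : 0 < c i := lt_of_le_of_ne (hc i) hci.symm
  have hs : 0 < c i / (-e i) := div_pos hci' (by linarith)
  refine ⟨c i / (-e i), hs, fun j => ?_, i, hci, ?_⟩
  · by_cases hj : e j < 0
    · have h1 := hmin j (mem_filter.mpr ⟨mem_univ _, hj⟩)
      rw [le_div_iff₀ (by linarith)] at h1
      linarith
    · have h1 := mul_nonneg hs.le (not_lt.mp hj)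
      linarith [hc j]
  · have h1 : -e i ≠ 0 := by linarith
    have h2 : c i / (-e i) * (-e i) = c i := div_mul_cancel₀ _ h1
    linarith

theorem vec_nonneg {w : Finset (Fin d) → ℚ} {ρ : ℚ} (h : Wt d ρ w)
    (j : Finset (Fin d) ⊕ Fin d) : 0 ≤ vec w ρ j := by
  cases j with
  | inl S => exact h.nonneg S
  | inr i => exact sub_nonneg.mpr (h.deg_le i)

theorem step (hd : 1 ≤ d) {w w' : Finset (Fin d) → ℚ} {ρ ρ' : ℚ} (h : Wt d ρ w)
    (h' : Wt d ρ' w') (hp : pat w' ρ' = pat w ρ) (hlt : ρ' < ρ) :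
    ∃ w'' ρ'', Wt d ρ'' w'' ∧ ρ'' < ρ ∧ (pat w'' ρ'').card < (pat w ρ).card := by
  obtain ⟨g, hg⟩ : ∃ g : Finset (Fin d) → ℚ, g = fun S => w' S - w S := ⟨_, rfl⟩
  have hw' : (fun S => w S + 1 * g S) = w' := by
    funext S
    rw [hg]
    ring
  have hv : ∀ j, vec w' ρ' j = vec w ρ j + vec g (ρ' - ρ) j := by
    intro j
    have h1 := vec_lin w g ρ (ρ' - ρ) 1 j
    rw [hw', one_mul, one_mul, add_sub_cancel] at h1
    exact h1
  have he : ∀ j, vec w ρ j = 0 → vec g (ρ' - ρ) j = 0 := by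
    intro j hj
    have h1 : j ∉ pat w ρ := fun hm => (mem_filter.mp hm).2 hj
    rw [← hp] at h1
    have h2 : vec w' ρ' j = 0 := by
      by_contra hne
      exact h1 (mem_filter.mpr ⟨mem_univ _, hne⟩)
    have h3 := hv j
    rw [h2, hj, zero_add] at h3
    exact h3.symm
  have hsum : ∑ S, g S = 0 := by
    rw [hg, sum_sub_distrib, h.sum, h'.sum, sub_self]
  have hneg : ∃ j, vec g (ρ' - ρ) j < 0 := by
    by_contra hno
    push Not at hno
    have hg0 : ∀ S, 0 ≤ g S := fun S => hno (Sum.inl S)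
    have hg1 : ∀ S, g S = 0 := fun S =>
      (sum_eq_zero_iff_of_nonneg fun S _ => hg0 S).mp hsum S (mem_univ S)
    have h1 := hno (Sum.inr ⟨0, hd⟩)
    have h2 : deg g (⟨0, hd⟩ : Fin d) = 0 := sum_eq_zero fun S _ => hg1 S
    change 0 ≤ (ρ' - ρ) - deg g ⟨0, hd⟩ at h1
    rw [h2] at h1
    linarith
  obtain ⟨s, hs, hpos, j, hj, hj0⟩ := line (vec w ρ) (vec g (ρ' - ρ)) (vec_nonneg h) he hneg
  have hvl := vec_lin w g ρ (ρ' - ρ) s
  have hpos' : ∀ j, 0 ≤ vec (fun S => w S + s * g S) (ρ + s * (ρ' - ρ)) j := fun j => by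
    rw [hvl]
    exact hpos j
  have hw0 : ∀ S, 0 < w S + s * g S → 0 < w S := by
    intro S hS
    refine lt_of_le_of_ne (h.nonneg S) fun h0 => ?_
    have h1 : g S = 0 := he (Sum.inl S) h0.symm
    rw [h1, ← h0] at hS
    norm_num at hS
  refine ⟨fun S => w S + s * g S, ρ + s * (ρ' - ρ), ⟨fun S => hpos' (Sum.inl S), ?_,
    fun S T hS hT => h.inter S T (hw0 S hS) (hw0 T hT), fun i => ?_⟩, ?_, ?_⟩
  · rw [sum_add_distrib, ← mul_sum, hsum, mul_zero, add_zero, h.sum]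
  · exact sub_nonneg.mp (hpos' (Sum.inr i))
  · nlinarith
  · refine card_lt_card ⟨fun k hk => ?_, fun hsub => ?_⟩
    · have h1 := (mem_filter.mp hk).2
      refine mem_filter.mpr ⟨mem_univ _, fun h0 => h1 ?_⟩
      rw [hvl, h0, he k h0]
      ring
    · have h1 := (mem_filter.mp (hsub (mem_filter.mpr ⟨mem_univ _, hj⟩))).2
      rw [hvl] at h1
      exact h1 hj0

/-- rigid values -/
def Rig (d : ℕ) (A : Finset (Finset (Fin d) ⊕ Fin d)) (ρ : ℚ) : Prop :=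
  ∃ w, Wt d ρ w ∧ pat w ρ = A ∧ ∀ w' ρ', Wt d ρ' w' → pat w' ρ' = A → ρ ≤ ρ'

theorem exists_rig (hd : 1 ≤ d) : ∀ (N : ℕ) (w : Finset (Fin d) → ℚ) (ρ : ℚ), Wt d ρ w →
    (pat w ρ).card ≤ N → ∃ A ρ', Rig d A ρ' ∧ ρ' ≤ ρ := by
  intro N
  induction N with
  | zero =>
    intro w ρ h hN
    by_cases hr : ∀ w' ρ', Wt d ρ' w' → pat w' ρ' = pat w ρ → ρ ≤ ρ'
    · exact ⟨pat w ρ, ρ, ⟨w, h, rfl, hr⟩, le_rfl⟩
    · push Not at hr
      obtain ⟨w', ρ', h', hp, hlt⟩ := hr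
      obtain ⟨w'', ρ'', h'', hlt2, hc⟩ := step hd h h' hp hlt
      omega
  | succ N ih =>
    intro w ρ h hN
    by_cases hr : ∀ w' ρ', Wt d ρ' w' → pat w' ρ' = pat w ρ → ρ ≤ ρ'
    · exact ⟨pat w ρ, ρ, ⟨w, h, rfl, hr⟩, le_rfl⟩
    · push Not at hr
      obtain ⟨w', ρ', h', hp, hlt⟩ := hr
      obtain ⟨w'', ρ'', h'', hlt2, hc⟩ := step hd h h' hp hlt
      obtain ⟨A, ρ₃, hA, h3⟩ := ih w'' ρ'' h'' (by omega)
      exact ⟨A, ρ₃, hA, h3.trans hlt2.le⟩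

theorem good_one (hd : 1 ≤ d) : ∃ w, Wt d 1 w := by
  have hle : ∀ (s : Finset (Finset (Fin d))),
      ∑ S ∈ s, (if S = (univ : Finset (Fin d)) then (1 : ℚ) else 0) ≤ 1 := by
    intro s
    calc ∑ S ∈ s, (if S = (univ : Finset (Fin d)) then (1 : ℚ) else 0)
        ≤ ∑ S, (if S = (univ : Finset (Fin d)) then (1 : ℚ) else 0) :=
          sum_le_sum_of_subset_of_nonneg (subset_univ _) fun S _ _ => by split_ifs <;> norm_num
      _ = 1 := by rw [sum_ite_eq' univ univ]; simp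
  refine ⟨fun S => if S = univ then 1 else 0, ⟨fun S => ?_, ?_, fun S T hS hT => ?_,
    fun i => hle _⟩⟩
  · split_ifs <;> norm_num
  · rw [sum_ite_eq' univ univ]
    simp
  · have h1 : S = univ := by
      by_contra hne
      rw [if_neg hne] at hS
      exact lt_irrefl _ hS
    have h2 : T = univ := by
      by_contra hne
      rw [if_neg hne] at hT
      exact lt_irrefl _ hT
    rw [h1, h2, inter_self]
    exact ⟨⟨0, hd⟩, mem_univ _⟩

theorem main : StmC := by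
  classical
  intro d hd
  obtain ⟨w1, hw1⟩ := good_one hd
  obtain ⟨A1, ρ1, hA1, -⟩ := exists_rig hd _ w1 1 hw1 le_rfl
  obtain ⟨f, hf⟩ : ∃ f : Finset (Finset (Fin d) ⊕ Fin d) → ℚ,
      ∀ A ρ, Rig d A ρ → Rig d A (f A) := by
    refine ⟨fun A => if h : ∃ ρ, Rig d A ρ then h.choose else 0, fun A ρ hA => ?_⟩
    have h : ∃ ρ, Rig d A ρ := ⟨ρ, hA⟩
    simp only [dif_pos h]
    exact h.choose_spec
  obtain ⟨A0, hA0, hmin⟩ := exists_min_image (univ.filter (fun A => ∃ ρ, Rig d A ρ)) f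
    ⟨A1, mem_filter.mpr ⟨mem_univ _, ρ1, hA1⟩⟩
  obtain ⟨ρ0, hρ0⟩ := (mem_filter.mp hA0).2
  have hR := hf A0 ρ0 hρ0
  refine ⟨f A0, ?_, fun ρ' hρ' => ?_⟩
  · obtain ⟨w, hw, -⟩ := hR
    exact ⟨w, hw⟩
  · obtain ⟨w', hw'⟩ := hρ'
    obtain ⟨A, ρ2, hA, hle⟩ := exists_rig hd _ w' ρ' hw' le_rfl
    have h1 := hmin A (mem_filter.mpr ⟨mem_univ _, ρ2, hA⟩)
    obtain ⟨w3, hw3, hp3, h3⟩ := hf A ρ2 hA
    obtain ⟨w2, hw2, hp2, -⟩ := hA
    exact h1.trans ((h3 w2 ρ2 hw2 hp2).trans hle)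

end R14.MC.C
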