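import Mathlib

set_option autoImplicit false

/-!
Project MC: MP_c6938d_co (multi-matchings in scaled low-frequency covering designs), full answer.
-/

namespace R14.MC

open Finset

/-- `B` is a `(v,k,2)` covering design with `d` blocks on the ground set `Fin v`. -/
structure IsCov (v k d : ℕ) (B : Fin d → Finset (Fin v)) : Prop where
  card : ∀ i, (B i).card = k
  cover : ∀ x y : Fin v, x ≠ y → ∃ i, x ∈ B i ∧ y ∈ B i

/-- The frequency `k d / v`. -/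
noncomputable def freq (v k d : ℕ) : ℝ := (k : ℝ) * d / v

/-- `U` is a multi-matching of the family `B` of `d` subsets of a finite set `α`:
`U i ⊆ B i`, all `U i` have `|α| / d` elements, and the `U i` partition `α`. -/
def MultiMatching {α : Type} [Fintype α] [DecidableEq α] {d : ℕ} (B : Fin d → Finset α) : Prop :=
  ∃ U : Fin d → Finset α, (∀ i, U i ⊆ B i) ∧ (∀ i, d * (U i).card = Fintype.card α) ∧
    (∀ i j, i ≠ j → Disjoint (U i) (U j)) ∧ ∀ x, ∃ i, x ∈ U i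

/-- The scaled version: every element is replaced by `d` new elements. -/
def scaled {v d : ℕ} (B : Fin d → Finset (Fin v)) : Fin d → Finset (Fin v × Fin d) :=
  fun i => B i ×ˢ (univ : Finset (Fin d))

/-- The type of a point: the set of blocks containing it. -/
def typ {v d : ℕ} (B : Fin d → Finset (Fin v)) (x : Fin v) : Finset (Fin d) :=
  univ.filter (fun i => x ∈ B i)

/-- Degree of the block `i` for a weight on types. -/
def deg {d : ℕ} (w : Finset (Fin d) → ℚ) (i : Fin d) : ℚ :=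
  ∑ S ∈ univ.filter (fun S : Finset (Fin d) => i ∈ S), w S

/-- A rational probability on pairwise intersecting types with all degrees at most `ρ`. -/
structure Wt (d : ℕ) (ρ : ℚ) (w : Finset (Fin d) → ℚ) : Prop where
  nonneg : ∀ S, 0 ≤ w S
  sum : ∑ S, w S = 1
  inter : ∀ S T, 0 < w S → 0 < w T → (S ∩ T).Nonempty
  deg_le : ∀ i, deg w i ≤ ρ

def Good (d : ℕ) (ρ : ℚ) : Prop := ∃ w, Wt d ρ w

/-- piece A -/
def StmA : Prop := ∀ (v k d : ℕ) (B : Fin d → Finset (Fin v)), 2 ≤ v → IsCov v k d B →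
  ∃ w, Wt d ((k : ℚ) / v) w ∧ (∀ i, deg w i = (k : ℚ) / v) ∧
    ∀ J : Finset (Fin d), (∑ S ∈ univ.filter (fun S => S ⊆ J), w S) =
      ((univ.filter (fun x => typ B x ⊆ J)).card : ℚ) / v

/-- piece B -/
def StmB : Prop := ∀ (d : ℕ) (ρ : ℚ), 1 ≤ d → Good d ρ →
  ∃ (v k : ℕ) (B : Fin d → Finset (Fin v)), 2 ≤ v ∧ 2 ≤ k ∧ IsCov v k d B ∧ (k : ℚ) / v ≤ ρ

/-- piece C -/
def StmC : Prop := ∀ d : ℕ, 1 ≤ d → ∃ ρ, Good d ρ ∧ ∀ ρ', Good d ρ' → ρ ≤ ρ'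

/-- piece H (Hall) -/
def StmH : Prop := ∀ (v d : ℕ) (B : Fin d → Finset (Fin v)), 1 ≤ d →
  (∀ J : Finset (Fin d), d * (univ.filter (fun x => typ B x ⊆ J)).card ≤ v * J.card) →
  MultiMatching (scaled B)

/-- piece R (stars of the complete graph) -/
def StmR : Prop := ∀ (d t : ℕ) (E : Finset (Fin d)), 2 ≤ t → t * (t - 1) ≤ 2 * E.card →
  ∃ R : Fin t → Finset (Fin d), (∀ u, R u ⊆ E) ∧ (∀ u u', (R u ∩ R u').Nonempty) ∧
    (∀ i, (univ.filter (fun u => i ∈ R u)).card ≤ 2) ∧ ∀ u, (R u).card = t - 1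

/-- piece I (inequalities): `x = |J|/d`, `y = 1 - x`, `n = d`. -/
def StmI : Prop := ∀ (n ρ a b x y : ℚ), 0 < n → 0 < ρ → a + b = 1 → x + y = 1 → 0 < x → x < a →
  ρ ≤ b → (∃ P, a ^ 2 ≤ P ∧ (a * b + P) ^ 2 ≤ x * n * ρ ^ 2 * P) →
  1 + b * (2 * b / ρ - 1) < y * n * ρ ∧ (b / ρ) * (2 * b / ρ + 1) < y * n

/-- piece P (double counting) -/
def StmP : Prop := ∀ (d : ℕ) (ρ : ℚ) (w : Finset (Fin d) → ℚ) (J : Finset (Fin d)), Wt d ρ w →
  let a := ∑ S ∈ univ.filter (fun S => S ⊆ J), w S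
  ∃ P, a ^ 2 ≤ P ∧ (a * (1 - a) + P) ^ 2 ≤ (J.card : ℚ) * ρ ^ 2 * P

/-- piece N (the new weight): an improvement from `R` and `π`. -/
def StmN : Prop := ∀ (d t : ℕ) (ρ : ℚ) (w : Finset (Fin d) → ℚ) (J : Finset (Fin d)) (R : Fin t → Finset (Fin d)),
  Wt d ρ w → 1 ≤ t → (∀ u, R u ⊆ Jᶜ) → (∀ u u', (R u ∩ R u').Nonempty) →
  (∀ i, (univ.filter (fun u => i ∈ R u)).card ≤ 2) → (∀ u, (R u).card = t - 1) →
  (∀ a b, a = ∑ S ∈ univ.filter (fun S => S ⊆ J), w S → a + b = 1 →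
    0 < a → b * (2 / t) < ρ → a + b * (t - 1) < (Jᶜ).card * ρ → ∃ ρ', ρ' < ρ ∧ Good d ρ')

/-- the improvement -/
def StmImp : Prop := ∀ (d : ℕ) (ρ : ℚ) (w : Finset (Fin d) → ℚ) (J : Finset (Fin d)), 1 ≤ d → Wt d ρ w →
  (∀ i, deg w i = ρ) → (J.card : ℚ) / d < ∑ S ∈ univ.filter (fun S => S ⊆ J), w S →
  ∃ ρ', ρ' < ρ ∧ Good d ρ'

/-- the full answer -/
def Main : Prop := ∀ d : ℕ, 3 ≤ d → ∃ β : ℝ, 0 < β ∧
  (∃ (v k : ℕ) (B : Fin d → Finset (Fin v)), 2 ≤ v ∧ 2 ≤ k ∧ IsCov v k d B ∧ freq v k d ≤ β) ∧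
  ∀ (v k : ℕ) (B : Fin d → Finset (Fin v)), 2 ≤ v → 2 ≤ k → IsCov v k d B → freq v k d ≤ β →
    MultiMatching (scaled B)

end R14.MC
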