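import Pool.Agent.R14.MC.Defs

set_option autoImplicit false

/-! Project MC, piece H (Hall). -/

namespace R14.MC.H

open R14.MC Finset

theorem main : StmH := by
  classical
  intro v d B hd hall
  -- slots
  let t : Fin v × Fin d → Finset (Fin d × Fin v) := fun p => typ B p.1 ×ˢ univ
  have hHall : ∀ s : Finset (Fin v × Fin d), s.card ≤ (s.biUnion t).card := by
    intro s
    have h1 : s.biUnion t = (s.biUnion fun p => typ B p.1) ×ˢ (univ : Finset (Fin v)) := by
      ext q
      simp [t]
    have h2 : s ⊆ (univ.filter (fun x => typ B x ⊆ s.biUnion fun p => typ B p.1)) ×ˢ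
        (univ : Finset (Fin d)) := by
      intro p hp
      rw [mem_product]
      refine ⟨mem_filter.2 ⟨mem_univ _, ?_⟩, mem_univ _⟩
      exact subset_biUnion_of_mem (fun p => typ B p.1) hp
    have h3 := card_le_card h2
    rw [card_product, card_univ, Fintype.card_fin] at h3
    rw [h1, card_product, card_univ, Fintype.card_fin]
    have h4 := hall (s.biUnion fun p => typ B p.1)
    calc s.card ≤ _ := h3
      _ = d * (univ.filter (fun x => typ B x ⊆ s.biUnion fun p => typ B p.1)).card :=
          mul_comm _ _
      _ ≤ v * (s.biUnion fun p => typ B p.1).card := h4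
      _ = _ := mul_comm _ _
  obtain ⟨f, hinj, hf⟩ := (all_card_le_biUnion_card_iff_exists_injective t).1 hHall
  have hbij : Function.Bijective f := by
    rw [Fintype.bijective_iff_injective_and_card]
    refine ⟨hinj, ?_⟩
    simp [mul_comm]
  refine ⟨fun i => univ.filter (fun p => (f p).1 = i), ?_, ?_, ?_, ?_⟩
  · intro i p hp
    have h1 := (mem_filter.1 hp).2
    have h2 := hf p
    rw [mem_product] at h2
    have h3 : i ∈ typ B p.1 := by rw [← h1]; exact h2.1
    unfold scaled
    rw [mem_product]
    exact ⟨(mem_filter.1 h3).2, mem_univ _⟩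
  · intro i
    have h1 : (univ.filter (fun p => (f p).1 = i)).card =
        (univ.filter (fun q : Fin d × Fin v => q.1 = i)).card := by
      refine card_bij (fun p _ => f p) ?_ (fun _ _ _ _ h => hinj h) ?_
      · intro p hp
        exact mem_filter.2 ⟨mem_univ _, (mem_filter.1 hp).2⟩
      · intro q hq
        obtain ⟨p, rfl⟩ := hbij.2 q
        exact ⟨p, mem_filter.2 ⟨mem_univ _, (mem_filter.1 hq).2⟩, rfl⟩
    have h2 : univ.filter (fun q : Fin d × Fin v => q.1 = i) = {i} ×ˢ (univ : Finset (Fin v)) := by
      ext q
      rw [mem_product, mem_filter, mem_singleton]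
      simp
    rw [h1, h2, card_product, card_singleton, one_mul, card_univ, Fintype.card_fin,
      Fintype.card_prod, Fintype.card_fin, Fintype.card_fin, mul_comm]
  · intro i j hij
    rw [disjoint_left]
    intro p hp hp'
    exact hij ((mem_filter.1 hp).2.symm.trans (mem_filter.1 hp').2)
  · intro p
    exact ⟨(f p).1, mem_filter.2 ⟨mem_univ _, rfl⟩⟩

end R14.MC.H
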