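import Pool.Agent.R14.MC.Defs

set_option autoImplicit false

/-! Project MC, piece I: two inequalities -/

namespace R14.MC.I

open R14.MC Finset

theorem main : StmI := by
  intro n ρ a b x y hn hρ hab hxy hx hxa hρb hP
  obtain ⟨P, hP1, hP2⟩ := hP
  have ha : 0 < a := hx.trans hxa
  have hb : 0 < b := hρ.trans_le hρb
  have hby : b < y := by linarith
  have hy : 0 < y := hb.trans hby
  have hPpos : 0 < P := lt_of_lt_of_le (by positivity) hP1
  set κ := n * ρ ^ 2 with hκ
  have hκ0 : 0 < κ := by positivity
  have hP3 : (a * b + P) ^ 2 ≤ (x * κ) * P := by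
    calc (a * b + P) ^ 2 ≤ x * n * ρ ^ 2 * P := hP2
      _ = (x * κ) * P := by rw [hκ]; ring
  have key : y + y ^ 2 ≤ y * κ ∧ 3 * y ^ 2 ≤ y * κ := by
    rcases le_or_gt b a with hle | hlt
    · have h1 : P ≤ (a * b + P) ^ 2 := by
        have h2 : (a * b + P) ^ 2 - P * (a + b) ^ 2 = (P - a ^ 2) * (P - b ^ 2) := by ring
        have h3 : b ^ 2 ≤ a ^ 2 := pow_le_pow_left₀ hb.le hle 2
        have h4 : 0 ≤ (P - a ^ 2) * (P - b ^ 2) :=
          mul_nonneg (by linarith) (by linarith)
        rw [hab] at h2
        linarith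
      have h5 : 1 ≤ x * κ := by
        by_contra hcon
        push Not at hcon
        have h6 : (x * κ) * P < 1 * P := mul_lt_mul_of_pos_right hcon hPpos
        linarith
      have h7 : y ≤ x * (y * κ) := by
        have := mul_le_mul_of_nonneg_left h5 hy.le
        linarith
      have hx1 : x = 1 - y := by linarith
      constructor
      · by_contra hcon
        push Not at hcon
        have h8 : x * (y * κ) < x * (y + y ^ 2) := mul_lt_mul_of_pos_left hcon hx
        have h9 : x * (y + y ^ 2) = y - y ^ 3 := by rw [hx1]; ring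
        have h10 : 0 < y ^ 3 := by positivity
        linarith
      · by_contra hcon
        push Not at hcon
        have h8 : x * (y * κ) < x * (3 * y ^ 2) := mul_lt_mul_of_pos_left hcon hx
        have h9 : x * (3 * y ^ 2) = y * (3 * y * (1 - y)) := by rw [hx1]; ring
        have h10 : 3 * y * (1 - y) ≤ 1 := by nlinarith [sq_nonneg (2 * y - 1)]
        have h11 : y * (3 * y * (1 - y)) ≤ y * 1 := mul_le_mul_of_nonneg_left h10 hy.le
        linarith
    · have h1 : 4 * (a * b) * P ≤ (x * κ) * P := by
        have : 4 * (a * b) * P ≤ (a * b + P) ^ 2 := by nlinarith [sq_nonneg (a * b - P)]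
        linarith
      have h2 : 4 * (a * b) ≤ x * κ := le_of_mul_le_mul_right h1 hPpos
      have h3 : a * b - x * y = (a - x) * (b - x) := by
        have hb1 : b = 1 - a := by linarith
        have hy1 : y = 1 - x := by linarith
        rw [hb1, hy1]; ring
      have h4 : 0 < (a - x) * (b - x) := mul_pos (by linarith) (by linarith)
      have h5 : x * (4 * y) < x * κ := by linarith
      have h6 : 4 * y < κ := lt_of_mul_lt_mul_left h5 hx.le
      have h7 : y * (4 * y) < y * κ := mul_lt_mul_of_pos_left h6 hy
      have h8 : 1 / 2 < y := by linarith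
      have h9 : y * (1 / 2) < y * y := mul_lt_mul_of_pos_left h8 hy
      constructor
      · nlinarith
      · nlinarith
  obtain ⟨k1, k2⟩ := key
  have hbb : b ^ 2 < y ^ 2 := pow_lt_pow_left₀ hby hb.le (by norm_num)
  have hρa : ρ * a ≤ b * a := mul_le_mul_of_nonneg_right hρb ha.le
  constructor
  · have e1 : 1 + b * (2 * b / ρ - 1) = (ρ + b * (2 * b - ρ)) / ρ := by field_simp
    rw [e1, div_lt_iff₀ hρ]
    have e2 : y * n * ρ * ρ = y * κ := by rw [hκ]; ring
    rw [e2]
    have e3 : ρ + b * (2 * b - ρ) = ρ * a + 2 * b ^ 2 := by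
      have : a = 1 - b := by linarith
      rw [this]; ring
    have e4 : b * a = b - b ^ 2 := by
      have : a = 1 - b := by linarith
      rw [this]; ring
    rw [e3]
    linarith
  · have e1 : b / ρ * (2 * b / ρ + 1) = (b * (2 * b + ρ)) / ρ ^ 2 := by field_simp
    rw [e1, div_lt_iff₀ (by positivity)]
    have e2 : y * n * ρ ^ 2 = y * κ := by rw [hκ]; ring
    rw [e2]
    have e3 : b * ρ ≤ b * b := mul_le_mul_of_nonneg_left hρb hb.le
    nlinarith

end R14.MC.I
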