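import Pool.Agent.R14.MC.Defs

set_option autoImplicit false

namespace R14.MC.Imp

open R14.MC Finset

lemma w_empty {d : ℕ} {ρ : ℚ} {w : Finset (Fin d) → ℚ} (h : Wt d ρ w) : w ∅ = 0 := by
  rcases (h.nonneg ∅).lt_or_eq with h0 | h0
  · have := h.inter ∅ ∅ h0 h0
    simp at this
  · exact h0.symm

theorem main : StmI → StmP → StmN → StmR → StmImp := by
  intro hI hP hN hR d ρ w J hd hw hdeg hJ
  obtain ⟨P, hP1, hP2⟩ := hP d ρ w J hw
  set a : ℚ := ∑ S ∈ univ.filter (fun S => S ⊆ J), w S with ha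
  have hd0 : (0 : ℚ) < d := by exact_mod_cast hd
  -- a ≤ 1
  have ha1 : a ≤ 1 := by
    rw [ha, ← hw.sum]
    exact Finset.sum_le_sum_of_subset_of_nonneg (Finset.filter_subset _ _)
      (fun S _ _ => hw.nonneg S)
  have hx0 : (0 : ℚ) ≤ (J.card : ℚ) / d := by positivity
  have ha0 : 0 < a := lt_of_le_of_lt hx0 hJ
  -- J nonempty
  have hJne : J.Nonempty := by
    rw [Finset.nonempty_iff_ne_empty]
    intro hJe
    have : a = 0 := by
      rw [ha, hJe]
      have : (univ.filter (fun S : Finset (Fin d) => S ⊆ ∅)) = {∅} := by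
        ext S
        simp [Finset.subset_empty]
      rw [this, Finset.sum_singleton]
      exact w_empty hw
    linarith
  have hJc : (0 : ℚ) < J.card := by exact_mod_cast hJne.card_pos
  have hx : (0 : ℚ) < (J.card : ℚ) / d := by positivity
  -- 0 < ρ
  have hρ : 0 < ρ := by
    have : ∃ S ∈ univ.filter (fun S => S ⊆ J), 0 < w S := by
      by_contra hcon
      push Not at hcon
      have : a ≤ 0 := Finset.sum_nonpos hcon
      linarith
    obtain ⟨S, -, hS⟩ := this
    obtain ⟨i, hi⟩ := hw.inter S S hS hS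
    rw [Finset.inter_self] at hi
    have h1 : w S ≤ deg w i := by
      unfold deg
      exact Finset.single_le_sum (f := w) (fun T _ => hw.nonneg T) (by simp [hi])
    rw [hdeg i] at h1
    linarith
  -- J ≠ univ
  have hcard : (J.card : ℚ) + (Jᶜ).card = d := by
    have := Finset.card_add_card_compl J
    rw [Fintype.card_fin] at this
    exact_mod_cast this
  have hJcc : (0 : ℚ) < (Jᶜ).card := by
    have h1 : (J.card : ℚ) / d < 1 := lt_of_lt_of_le hJ ha1
    rw [div_lt_one hd0] at h1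
    linarith
  have hJcne : (Jᶜ).Nonempty := by
    rw [← Finset.card_pos]
    exact_mod_cast hJcc
  obtain ⟨i, hi⟩ := hJcne
  rw [Finset.mem_compl] at hi
  have hsplit : a + ∑ S ∈ univ.filter (fun S => ¬ S ⊆ J), w S = 1 := by
    rw [ha, Finset.sum_filter_add_sum_filter_not, hw.sum]
  have hρb : ρ ≤ 1 - a := by
    rw [← hdeg i]
    have : deg w i ≤ ∑ S ∈ univ.filter (fun S => ¬ S ⊆ J), w S := by
      unfold deg
      apply Finset.sum_le_sum_of_subset_of_nonneg
      · intro S hS
        simp only [Finset.mem_filter, Finset.mem_univ, true_and] at hS ⊢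
        intro hSJ
        exact hi (hSJ hS)
      · intro S _ _
        exact hw.nonneg S
    linarith
  set b : ℚ := 1 - a with hb
  have hab : a + b = 1 := by rw [hb]; ring
  have hb0 : 0 < b := lt_of_lt_of_le hρ hρb
  have hI' := hI (d : ℚ) ρ a b ((J.card : ℚ) / d) (((Jᶜ).card : ℚ) / d) hd0 hρ hab
    (by rw [← add_div, hcard, div_self hd0.ne']) hx hJ hρb
    ⟨P, hP1, by
      have e : (J.card : ℚ) / d * d * ρ ^ 2 * P = (J.card : ℚ) * ρ ^ 2 * P := by
        field_simp
      rw [e]; exact hP2⟩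
  have ey : ((Jᶜ).card : ℚ) / d * d = (Jᶜ).card := by field_simp
  rw [ey] at hI'
  obtain ⟨hI1, hI2⟩ := hI'
  -- t
  set r : ℚ := 2 * b / ρ with hr
  have hr2 : 2 ≤ r := by
    rw [hr, le_div_iff₀ hρ]
    linarith
  have hr0 : 0 ≤ r := by linarith
  set t : ℕ := ⌊r⌋₊ + 1 with ht
  have ht1 : r < t := by
    rw [ht]; push_cast; exact Nat.lt_floor_add_one r
  have ht2 : (t : ℚ) ≤ r + 1 := by
    rw [ht]; push_cast
    linarith [Nat.floor_le hr0]
  have ht3 : 2 ≤ t := by
    have : (2 : ℚ) < t := lt_of_le_of_lt hr2 ht1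
    have : 2 < t := by exact_mod_cast this
    omega
  have htq : (0 : ℚ) < t := by linarith
  have hRt : t * (t - 1) ≤ 2 * (Jᶜ).card := by
    have hcast : ((t * (t - 1) : ℕ) : ℚ) ≤ ((2 * (Jᶜ).card : ℕ) : ℚ) := by
      rw [Nat.cast_mul, Nat.cast_sub (by omega : 1 ≤ t)]
      push_cast
      have e : b / ρ = r / 2 := by rw [hr]; ring
      rw [e] at hI2
      have h3 : (t : ℚ) * (t - 1) ≤ (r + 1) * r := by
        apply mul_le_mul ht2 (by linarith) (by linarith) (by linarith)
      nlinarith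
    exact_mod_cast hcast
  obtain ⟨R, hR1, hR2, hR3, hR4⟩ := hR d t Jᶜ ht3 hRt
  refine hN d t ρ w J R hw (by omega) hR1 hR2 hR3 hR4 a b ha hab ha0 ?_ ?_
  · have h4 : 2 * b < ρ * t := by
      have := (div_lt_iff₀ hρ).1 ht1
      linarith
    rw [show b * (2 / (t : ℚ)) = (2 * b) / t by ring, div_lt_iff₀ htq]
    exact h4
  · have h5 : b * ((t : ℚ) - 1) ≤ b * r := by
      apply mul_le_mul_of_nonneg_left (by linarith) hb0.le
    have h6 : a + b * r = 1 + b * (r - 1) := by
      rw [hb]; ring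
    calc a + b * ((t : ℚ) - 1) ≤ a + b * r := by linarith
      _ = 1 + b * (r - 1) := h6
      _ < _ := hI1

end R14.MC.Imp
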