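import Pool.Agent.R14.MC.Defs

set_option autoImplicit false

/-!
Project MC, piece Main: assembly.
-/

namespace R14.MC.Main

open R14.MC Finset

/-- A good pair has positive `ρ`. -/
theorem rho_pos {d : ℕ} {ρ : ℚ} {w : Finset (Fin d) → ℚ} (hw : Wt d ρ w) : 0 < ρ := by
  by_contra hρ
  have hρ : ρ ≤ 0 := not_lt.mp hρ
  have h0 : ∀ S, w S = 0 := by
    intro S
    by_contra hS
    have hpos : 0 < w S := lt_of_le_of_ne (hw.nonneg S) (Ne.symm hS)
    obtain ⟨i, hi⟩ := hw.inter S S hpos hpos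
    have hi' : i ∈ S := (Finset.mem_inter.mp hi).1
    have h1 : w S ≤ deg w i := by
      unfold deg
      exact Finset.single_le_sum (f := w) (fun T _ => hw.nonneg T) (by simp [hi'])
    have h2 := hw.deg_le i
    linarith
  have h1 := hw.sum
  simp [h0] at h1

theorem main : StmA → StmB → StmC → StmH → StmImp → R14.MC.Main := by
  intro hA hB hC hH hImp d hd
  have hd1 : 1 ≤ d := by omega
  have hd0 : (0 : ℚ) < d := by exact_mod_cast (by omega : 0 < d)
  have hd0R : (0 : ℝ) < d := by exact_mod_cast (by omega : 0 < d)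
  obtain ⟨ρ, hρ, hmin⟩ := hC d hd1
  have hρpos : 0 < ρ := by
    obtain ⟨w, hw⟩ := hρ
    exact rho_pos hw
  have hρposR : (0 : ℝ) < (ρ : ℝ) := by exact_mod_cast hρpos
  refine ⟨(ρ : ℝ) * d, mul_pos hρposR hd0R, ?_, ?_⟩
  · obtain ⟨v, k, B, hv, hk, hcov, hle⟩ := hB d ρ hd1 hρ
    refine ⟨v, k, B, hv, hk, hcov, ?_⟩
    unfold freq
    have hleR : ((k : ℝ) / v) ≤ (ρ : ℝ) := by
      have : (((k : ℚ) / v : ℚ) : ℝ) ≤ (ρ : ℝ) := by exact_mod_cast hle
      simpa using this
    have : (k : ℝ) * d / v = ((k : ℝ) / v) * d := by ring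
    rw [this]
    exact mul_le_mul_of_nonneg_right hleR hd0R.le
  · intro v k B hv hk hcov hle
    have hv0 : (0 : ℚ) < v := by exact_mod_cast (by omega : 0 < v)
    have hkv : (k : ℚ) / v ≤ ρ := by
      unfold freq at hle
      have h1 : (k : ℝ) * d / v = ((k : ℝ) / v) * d := by ring
      rw [h1] at hle
      have h2 : ((k : ℝ) / v) ≤ (ρ : ℝ) := le_of_mul_le_mul_right hle hd0R
      have h3 : (((k : ℚ) / v : ℚ) : ℝ) ≤ (ρ : ℝ) := by simpa using h2
      exact_mod_cast h3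
    obtain ⟨w, hw, hdeg, hsum⟩ := hA v k d B hv hcov
    have hge : ρ ≤ (k : ℚ) / v := hmin _ ⟨w, hw⟩
    have heq : (k : ℚ) / v = ρ := le_antisymm hkv hge
    rw [heq] at hw hdeg
    apply hH v d B hd1
    intro J
    by_contra hcon
    have hcon := not_le.mp hcon
    have hlt : (J.card : ℚ) / d < ∑ S ∈ univ.filter (fun S => S ⊆ J), w S := by
      rw [hsum J, div_lt_div_iff₀ hd0 hv0]
      have : (v * J.card : ℚ) < d * (univ.filter (fun x => typ B x ⊆ J)).card := by
        exact_mod_cast hcon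
      linarith
    obtain ⟨ρ', hρ', hgood⟩ := hImp d ρ w J hd1 hw hdeg hlt
    exact absurd (hmin ρ' hgood) (not_le.mpr hρ')

end R14.MC.Main
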