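import Pool.Agent.R14.MC.Defs

set_option autoImplicit false

namespace R14.MC.N

open R14.MC Finset

theorem push {Ω : Type} [Fintype Ω] {d : ℕ} (ρ' : ℚ) (q : Ω → ℚ) (τ : Ω → Finset (Fin d))
    (hq : ∀ ω, 0 ≤ q ω) (h1 : ∑ ω, q ω = 1)
    (hi : ∀ ω ω', 0 < q ω → 0 < q ω' → (τ ω ∩ τ ω').Nonempty)
    (hd : ∀ i, ∑ ω, (if i ∈ τ ω then q ω else 0) ≤ ρ') : Good d ρ' := by
  classical
  refine ⟨fun S => ∑ ω, if τ ω = S then q ω else 0, ?_, ?_, ?_, ?_⟩
  · intro S
    exact Finset.sum_nonneg (fun ω _ => by split_ifs <;> simp [hq])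
  · rw [Finset.sum_comm]
    simp [h1]
  · intro S T hS hT
    obtain ⟨ω, _, h⟩ := Finset.exists_ne_zero_of_sum_ne_zero hS.ne'
    obtain ⟨ω', _, h'⟩ := Finset.exists_ne_zero_of_sum_ne_zero hT.ne'
    have e1 : τ ω = S := by by_contra hh; simp [hh] at h
    have e2 : τ ω' = T := by by_contra hh; simp [hh] at h'
    have p1 : q ω ≠ 0 := by simpa [e1] using h
    have p2 : q ω' ≠ 0 := by simpa [e2] using h'
    rw [← e1, ← e2]
    exact hi ω ω' (lt_of_le_of_ne (hq ω) (Ne.symm p1)) (lt_of_le_of_ne (hq ω') (Ne.symm p2))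
  · intro i
    refine le_trans (le_of_eq ?_) (hd i)
    unfold deg
    rw [Finset.sum_comm]
    refine Finset.sum_congr rfl (fun ω _ => ?_)
    rw [Finset.sum_filter]
    by_cases h : i ∈ τ ω
    · rw [if_pos h]
      rw [Finset.sum_eq_single (τ ω)]
      · simp [h]
      · intro S _ hS
        simp [Ne.symm hS]
      · simp
    · rw [if_neg h]
      refine Finset.sum_eq_zero (fun S _ => ?_)
      by_cases hS : τ ω = S
      · subst hS; simp [h]
      · simp [hS]

theorem main : StmN := by
  classical
  intro d t ρ w J R hw ht hRsub hRint hRdeg hRcard a b ha hab ha0 hbt hE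
  have htq : (0 : ℚ) < t := by exact_mod_cast ht
  -- inner and outer weights
  set wi : Finset (Fin d) → ℚ := fun S => if S ⊆ J then w S else 0 with hwi
  set wo : Finset (Fin d) → ℚ := fun S => if S ⊆ J then 0 else w S with hwo
  have hwi0 : ∀ S, 0 ≤ wi S := fun S => by simp only [hwi]; split_ifs <;> simp [hw.nonneg]
  have hwo0 : ∀ S, 0 ≤ wo S := fun S => by simp only [hwo]; split_ifs <;> simp [hw.nonneg]
  have hsplit : ∀ S, wi S + wo S = w S := fun S => by simp only [hwi, hwo]; split_ifs <;> simp
  have hsa : ∑ S, wi S = a := by rw [ha, Finset.sum_filter]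
  have hsb : ∑ S, wo S = b := by
    have : ∑ S, wi S + ∑ S, wo S = 1 := by
      rw [← Finset.sum_add_distrib, ← hw.sum]
      exact Finset.sum_congr rfl (fun S _ => hsplit S)
    linarith
  have hb0 : 0 ≤ b := hsb ▸ Finset.sum_nonneg (fun S _ => hwo0 S)
  have hρ : 0 < ρ := lt_of_le_of_lt (by positivity) hbt
  -- degrees of R
  set r : Fin d → ℚ := fun i => ((univ.filter (fun u => i ∈ R u)).card : ℚ) / t with hr
  have hr2 : ∀ i, r i ≤ 2 / t := by
    intro i
    simp only [hr]
    gcongr
    exact_mod_cast hRdeg i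
  have hrsum : ∑ i ∈ Jᶜ, r i = t - 1 := by
    simp only [hr]
    rw [← Finset.sum_div]
    have h1 : ∑ i ∈ Jᶜ, ((univ.filter (fun u => i ∈ R u)).card : ℚ) = ∑ u : Fin t, ((R u).card : ℚ) := by
      have : ∀ i, ((univ.filter (fun u => i ∈ R u)).card : ℚ) = ∑ u : Fin t, if i ∈ R u then (1 : ℚ) else 0 := by
        intro i; simp
      simp_rw [this]
      rw [Finset.sum_comm]
      refine Finset.sum_congr rfl (fun u _ => ?_)
      rw [← Finset.sum_filter]
      rw [Finset.sum_const, nsmul_eq_mul, mul_one]
      congr 2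
      ext i
      simp only [Finset.mem_filter]
      exact ⟨fun h => h.2, fun h => ⟨hRsub u h, h⟩⟩
    rw [h1]
    simp_rw [hRcard]
    rw [Finset.sum_const, nsmul_eq_mul, Finset.card_univ, Fintype.card_fin, Nat.cast_sub ht]
    field_simp
    simp
  set c : Fin d → ℚ := fun i => ρ - b * r i with hc
  set c0 : ℚ := ρ - b * (2 / t) with hc0
  have hc0pos : 0 < c0 := by rw [hc0]; linarith
  have hcc0 : ∀ i, c0 ≤ c i := by
    intro i
    simp only [hc, hc0]
    have := mul_le_mul_of_nonneg_left (hr2 i) hb0
    linarith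
  set C : ℚ := ∑ i ∈ Jᶜ, c i with hC
  have hCval : C = (Jᶜ).card * ρ - b * (t - 1) := by
    rw [hC]
    simp only [hc]
    rw [Finset.sum_sub_distrib, ← Finset.mul_sum, hrsum, Finset.sum_const, nsmul_eq_mul]
  have hCa : a < C := by rw [hCval]; linarith
  have hC0 : 0 < C := lt_trans ha0 hCa
  set π : Fin d → ℚ := fun i => if i ∈ J then 0 else c i / C with hπ
  have hπ0 : ∀ i, 0 ≤ π i := by
    intro i
    simp only [hπ]
    split_ifs
    · exact le_rfl
    · exact div_nonneg (le_trans hc0pos.le (hcc0 i)) hC0.le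
  have hπJ : ∀ i, i ∈ J → π i = 0 := fun i hi => by simp [hπ, hi]
  have hπsum : ∑ i, π i = 1 := by
    rw [← Finset.sum_add_sum_compl J]
    rw [Finset.sum_eq_zero (fun i hi => hπJ i hi), zero_add]
    have : ∑ i ∈ Jᶜ, π i = ∑ i ∈ Jᶜ, c i / C := by
      refine Finset.sum_congr rfl (fun i hi => ?_)
      simp [hπ, Finset.mem_compl.1 hi]
    rw [this, ← Finset.sum_div, ← hC, div_self hC0.ne']
  set δ : ℚ := c0 * (C - a) / C with hδ
  have hδ0 : 0 < δ := by
    rw [hδ]
    exact div_pos (mul_pos hc0pos (by linarith)) hC0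
  have hkey : ∀ i, i ∉ J → a * π i + b * r i ≤ ρ - δ := by
    intro i hi
    have h1 : π i = c i / C := by simp [hπ, hi]
    rw [h1]
    have h2 : b * r i = ρ - c i := by simp only [hc]; ring
    rw [h2]
    have h3 : δ ≤ c i * (C - a) / C := by
      rw [hδ]
      apply div_le_div_of_nonneg_right _ hC0.le
      exact mul_le_mul_of_nonneg_right (hcc0 i) (by linarith)
    have h4 : c i * (C - a) / C = c i - a * (c i / C) := by
      field_simp
    linarith
  set η : ℚ := min (δ / 2) (1 / 2) with hη
  have hη0 : 0 < η := lt_min (by linarith) (by norm_num)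
  have hη1 : η ≤ 1 / 2 := min_le_right _ _
  have hηδ : η ≤ δ / 2 := min_le_left _ _
  refine ⟨max ((1 - η) * ρ) (ρ - δ + η), ?_, ?_⟩
  · apply max_lt
    · nlinarith
    · linarith
  · let q : (Finset (Fin d) × Fin d) ⊕ ((Finset (Fin d) × Fin t) ⊕ Unit) → ℚ :=
      Sum.elim (fun p => (1 - η) * (wi p.1 * π p.2))
        (Sum.elim (fun p => (1 - η) * (wo p.1 * (1 / t))) (fun _ => η))
    let τ : (Finset (Fin d) × Fin d) ⊕ ((Finset (Fin d) × Fin t) ⊕ Unit) → Finset (Fin d) :=
      Sum.elim (fun p => insert p.2 p.1)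
        (Sum.elim (fun p => (p.1 ∩ J) ∪ R p.2) (fun _ => Jᶜ))
    refine push _ q τ ?_ ?_ ?_ ?_
    · rintro (⟨S, p⟩ | ⟨T, u⟩ | _)
      · exact mul_nonneg (by linarith) (mul_nonneg (hwi0 S) (hπ0 p))
      · exact mul_nonneg (by linarith) (mul_nonneg (hwo0 T) (by positivity))
      · exact hη0.le
    · rw [Fintype.sum_sum_type, Fintype.sum_sum_type, Fintype.sum_prod_type, Fintype.sum_prod_type]
      simp only [q, Sum.elim_inl, Sum.elim_inr]
      have e1 : ∑ x : Finset (Fin d), ∑ y : Fin d, (1 - η) * (wi x * π y) = (1 - η) * a := by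
        simp_rw [← Finset.mul_sum, hπsum, mul_one, hsa]
      have e2 : ∑ x : Finset (Fin d), ∑ y : Fin t, (1 - η) * (wo x * (1 / (t : ℚ))) = (1 - η) * b := by
        have h5 : ∀ x : Finset (Fin d), ∑ y : Fin t, (1 - η) * (wo x * (1 / (t : ℚ))) = (1 - η) * wo x := by
          intro x
          rw [Finset.sum_const, Finset.card_univ, Fintype.card_fin, nsmul_eq_mul]
          field_simp
        simp_rw [h5]
        rw [← Finset.mul_sum, hsb]
      rw [e1, e2]
      simp only [Finset.univ_unique, Finset.sum_const, Finset.card_singleton, one_smul]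
      have : (1 - η) * a + ((1 - η) * b + η) = (1 - η) * (a + b) + η := by ring
      rw [this, hab]; ring
    · have hwpos_i : ∀ S p, 0 < (1 - η) * (wi S * π p) → S ⊆ J ∧ 0 < w S ∧ p ∉ J := by
        intro S p h
        have h0 : wi S ≠ 0 := by intro h'; rw [h'] at h; simp at h
        have h1 : π p ≠ 0 := by intro h'; rw [h'] at h; simp at h
        have hSJ : S ⊆ J := by
          by_contra hh
          exact h0 (by simp [hwi, hh])
        refine ⟨hSJ, ?_, fun hp => h1 (hπJ p hp)⟩
        have : wi S = w S := by simp [hwi, hSJ]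
        rw [this] at h0
        exact lt_of_le_of_ne (hw.nonneg S) (Ne.symm h0)
      have hwpos_o : ∀ T, 0 < (1 - η) * (wo T * (1 / (t : ℚ))) → 0 < w T := by
        intro T h
        have h0 : wo T ≠ 0 := by intro h'; rw [h'] at h; simp at h
        have hSJ : ¬ T ⊆ J := by
          intro hh
          exact h0 (by simp [hwo, hh])
        have : wo T = w T := by simp [hwo, hSJ]
        rw [this] at h0
        exact lt_of_le_of_ne (hw.nonneg T) (Ne.symm h0)
      rintro (⟨S, p⟩ | ⟨T, u⟩ | _) (⟨S', p'⟩ | ⟨T', u'⟩ | _) h h'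
      · simp only [q, Sum.elim_inl, Sum.elim_inr] at h h'
        obtain ⟨x, hx⟩ := hw.inter S S' (hwpos_i S p h).2.1 (hwpos_i S' p' h').2.1
        rw [Finset.mem_inter] at hx
        exact ⟨x, by simp [τ, hx.1, hx.2]⟩
      · simp only [q, Sum.elim_inl, Sum.elim_inr] at h h'
        obtain ⟨x, hx⟩ := hw.inter S T' (hwpos_i S p h).2.1 (hwpos_o T' h')
        rw [Finset.mem_inter] at hx
        exact ⟨x, by simp [τ, hx.1, hx.2, (hwpos_i S p h).1 hx.1]⟩
      · simp only [q, Sum.elim_inl, Sum.elim_inr] at h h'
        exact ⟨p, by simp [τ, (hwpos_i S p h).2.2]⟩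
      · simp only [q, Sum.elim_inl, Sum.elim_inr] at h h'
        obtain ⟨x, hx⟩ := hw.inter T S' (hwpos_o T h) (hwpos_i S' p' h').2.1
        rw [Finset.mem_inter] at hx
        exact ⟨x, by simp [τ, hx.1, hx.2, (hwpos_i S' p' h').1 hx.2]⟩
      · obtain ⟨x, hx⟩ := hRint u u'
        rw [Finset.mem_inter] at hx
        exact ⟨x, by simp [τ, hx.1, hx.2]⟩
      · obtain ⟨x, hx⟩ := hRint u u
        rw [Finset.mem_inter] at hx
        exact ⟨x, by simpa [τ, hx.1] using hRsub u hx.1⟩
      · simp only [q, Sum.elim_inl, Sum.elim_inr] at h h'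
        exact ⟨p', by simp [τ, (hwpos_i S' p' h').2.2]⟩
      · obtain ⟨x, hx⟩ := hRint u' u'
        rw [Finset.mem_inter] at hx
        exact ⟨x, by simpa [τ, hx.1] using hRsub u' hx.1⟩
      · have hne : (Jᶜ).Nonempty := by
          rw [Finset.nonempty_iff_ne_empty]
          intro he
          rw [hC, he, Finset.sum_empty] at hC0
          exact lt_irrefl _ hC0
        obtain ⟨x, hx⟩ := hne
        exact ⟨x, by simpa [τ] using hx⟩
    · intro i
      rw [Fintype.sum_sum_type, Fintype.sum_sum_type, Fintype.sum_prod_type, Fintype.sum_prod_type]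
      change (∑ x : Finset (Fin d), ∑ y : Fin d, (if i ∈ insert y x then (1 - η) * (wi x * π y) else 0)) +
        ((∑ x : Finset (Fin d), ∑ y : Fin t, (if i ∈ (x ∩ J) ∪ R y then (1 - η) * (wo x * (1 / (t : ℚ))) else 0)) +
          ∑ x : Unit, (if i ∈ Jᶜ then η else 0)) ≤ _
      by_cases hi : i ∈ J
      · refine le_trans ?_ (le_max_left _ _)
        have e1 : ∑ x : Finset (Fin d), ∑ y : Fin d, (if i ∈ insert y x then (1 - η) * (wi x * π y) else 0) =
            (1 - η) * ∑ x : Finset (Fin d), if i ∈ x then wi x else 0 := by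
          rw [Finset.mul_sum]
          refine Finset.sum_congr rfl (fun x _ => ?_)
          have : ∀ y : Fin d, (if i ∈ insert y x then (1 - η) * (wi x * π y) else 0) =
              (1 - η) * (if i ∈ x then wi x else 0) * π y := by
            intro y
            by_cases hy : y ∈ J
            · rw [hπJ y hy]; simp
            · have : i ≠ y := fun h => hy (h ▸ hi)
              by_cases hx : i ∈ x
              · simp [hx]; ring
              · simp [hx, this]
          simp_rw [this]
          rw [← Finset.mul_sum, hπsum, mul_one]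
        have e2 : ∑ x : Finset (Fin d), ∑ y : Fin t, (if i ∈ (x ∩ J) ∪ R y then (1 - η) * (wo x * (1 / (t : ℚ))) else 0) =
            (1 - η) * ∑ x : Finset (Fin d), if i ∈ x then wo x else 0 := by
          rw [Finset.mul_sum]
          refine Finset.sum_congr rfl (fun x _ => ?_)
          have : ∀ y : Fin t, (if i ∈ (x ∩ J) ∪ R y then (1 - η) * (wo x * (1 / (t : ℚ))) else 0) =
              (1 - η) * (if i ∈ x then wo x else 0) * (1 / t) := by
            intro y
            have hR : i ∉ R y := fun h => (Finset.mem_compl.1 (hRsub y h)) hi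
            by_cases hx : i ∈ x
            · simp [hx, hi]; ring
            · simp [hx, hR]
          simp_rw [this]
          rw [Finset.sum_const, Finset.card_univ, Fintype.card_fin, nsmul_eq_mul]
          field_simp
        rw [e1, e2]
        simp only [Finset.mem_compl, hi, not_true_eq_false, if_false, Finset.sum_const_zero, add_zero]
        rw [← mul_add, ← Finset.sum_add_distrib]
        have e3 : ∑ x : Finset (Fin d), ((if i ∈ x then wi x else 0) + (if i ∈ x then wo x else 0)) = deg w i := by
          unfold deg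
          rw [Finset.sum_filter]
          refine Finset.sum_congr rfl (fun x _ => ?_)
          split_ifs
          · exact hsplit x
          · simp
        rw [e3]
        exact mul_le_mul_of_nonneg_left (hw.deg_le i) (by linarith)
      · refine le_trans ?_ (le_max_right _ _)
        have e1 : ∑ x : Finset (Fin d), ∑ y : Fin d, (if i ∈ insert y x then (1 - η) * (wi x * π y) else 0) =
            (1 - η) * (a * π i) := by
          have : ∀ x : Finset (Fin d), ∑ y : Fin d, (if i ∈ insert y x then (1 - η) * (wi x * π y) else 0) =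
              (1 - η) * (wi x * π i) := by
            intro x
            by_cases hx : x ⊆ J
            · have hix : i ∉ x := fun h => hi (hx h)
              rw [Finset.sum_eq_single i]
              · simp
              · intro y _ hy
                simp [hix, Ne.symm hy]
              · simp
            · have : wi x = 0 := by simp [hwi, hx]
              simp [this]
          simp_rw [this]
          rw [← Finset.mul_sum, ← Finset.sum_mul, hsa]
        have e2 : ∑ x : Finset (Fin d), ∑ y : Fin t, (if i ∈ (x ∩ J) ∪ R y then (1 - η) * (wo x * (1 / (t : ℚ))) else 0) =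
            (1 - η) * (b * r i) := by
          have : ∀ x : Finset (Fin d), ∑ y : Fin t, (if i ∈ (x ∩ J) ∪ R y then (1 - η) * (wo x * (1 / (t : ℚ))) else 0) =
              (1 - η) * (wo x * r i) := by
            intro x
            have h5 : ∀ y : Fin t, (if i ∈ (x ∩ J) ∪ R y then (1 - η) * (wo x * (1 / (t : ℚ))) else 0) =
                (1 - η) * (wo x * (1 / (t : ℚ))) * (if i ∈ R y then 1 else 0) := by
              intro y
              by_cases hy : i ∈ R y
              · simp [hy]
              · simp [hy, hi]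
            simp_rw [h5]
            rw [← Finset.mul_sum]
            simp only [hr]
            rw [Finset.sum_boole]
            ring
          simp_rw [this]
          rw [← Finset.mul_sum, ← Finset.sum_mul, hsb]
        rw [e1, e2]
        simp only [Finset.mem_compl, hi, not_false_eq_true, if_true, Finset.univ_unique, Finset.sum_const,
          Finset.card_singleton, one_smul]
        have h6 := hkey i hi
        have h7 : 0 ≤ a * π i + b * r i := by
          have hr0 : 0 ≤ r i := by
            simp only [hr]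
            exact div_nonneg (Nat.cast_nonneg _) (Nat.cast_nonneg _)
          exact add_nonneg (mul_nonneg ha0.le (hπ0 i)) (mul_nonneg hb0 hr0)
        have h8 : 0 ≤ η * (a * π i + b * r i) := mul_nonneg hη0.le h7
        have h9 : (1 - η) * (a * π i) + ((1 - η) * (b * r i) + η) =
            (a * π i + b * r i) - η * (a * π i + b * r i) + η := by ring
        rw [h9]
        linarith

end R14.MC.N
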