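import Pool.Agent.R14.MC.Defs

set_option autoImplicit false

/-! Project MC, piece P (helper160): double counting and Cauchy-Schwarz. -/

namespace R14.MC.P

open R14.MC Finset

/-- partial degree -/
def pr {d : ℕ} (w : Finset (Fin d) → ℚ) (X : Finset (Finset (Fin d))) (i : Fin d) : ℚ :=
  ∑ S ∈ X, if i ∈ S then w S else 0

lemma ite_nonneg' {d : ℕ} {ρ : ℚ} {w : Finset (Fin d) → ℚ} (hw : Wt d ρ w) (i : Fin d)
    (S : Finset (Fin d)) : 0 ≤ (if i ∈ S then w S else 0) := by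
  split_ifs
  · exact hw.nonneg S
  · exact le_refl _

lemma pr_nonneg {d : ℕ} {ρ : ℚ} {w : Finset (Fin d) → ℚ} (hw : Wt d ρ w)
    (X : Finset (Finset (Fin d))) (i : Fin d) : 0 ≤ pr w X i :=
  Finset.sum_nonneg fun S _ => ite_nonneg' hw i S

lemma key {d : ℕ} {ρ : ℚ} {w : Finset (Fin d) → ℚ} (hw : Wt d ρ w) (J : Finset (Fin d))
    (X Y : Finset (Finset (Fin d))) (hX : ∀ S ∈ X, S ⊆ J) :
    (∑ S ∈ X, w S) * (∑ T ∈ Y, w T) ≤ ∑ i ∈ J, pr w X i * pr w Y i := by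
  have h1 : ∑ i ∈ J, pr w X i * pr w Y i = ∑ S ∈ X, ∑ T ∈ Y, ∑ i ∈ J,
      (if i ∈ S then w S else 0) * (if i ∈ T then w T else 0) := by
    unfold pr
    simp_rw [Finset.sum_mul_sum]
    rw [Finset.sum_comm]
    refine Finset.sum_congr rfl fun S _ => ?_
    rw [Finset.sum_comm]
  rw [h1, Finset.sum_mul_sum]
  refine Finset.sum_le_sum fun S hS => Finset.sum_le_sum fun T _ => ?_
  have hnn : ∀ i ∈ J, 0 ≤ (if i ∈ S then w S else 0) * (if i ∈ T then w T else 0) :=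
    fun i _ => mul_nonneg (ite_nonneg' hw i S) (ite_nonneg' hw i T)
  rcases (hw.nonneg S).eq_or_lt with h0 | h0
  · rw [← h0, zero_mul]
    rw [← h0] at hnn
    exact Finset.sum_nonneg hnn
  rcases (hw.nonneg T).eq_or_lt with h2 | h2
  · rw [← h2, mul_zero]
    rw [← h2] at hnn
    exact Finset.sum_nonneg hnn
  obtain ⟨i, hi⟩ := hw.inter S T h0 h2
  rw [Finset.mem_inter] at hi
  have h3 := Finset.single_le_sum hnn (hX S hS hi.1)
  rw [if_pos hi.1, if_pos hi.2] at h3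
  exact h3

theorem main : StmP := by
  intro d ρ w J hw
  intro a
  set X : Finset (Finset (Fin d)) := univ.filter (fun S => S ⊆ J) with hX
  set Y : Finset (Finset (Fin d)) := univ.filter (fun S => ¬ S ⊆ J) with hY
  have hXJ : ∀ S ∈ X, S ⊆ J := fun S hS => (Finset.mem_filter.1 hS).2
  have ha : a = ∑ S ∈ X, w S := rfl
  have hb : 1 - a = ∑ S ∈ Y, w S := by
    have h := Finset.sum_filter_add_sum_filter_not (univ : Finset (Finset (Fin d)))
      (fun S => S ⊆ J) w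
    rw [hw.sum] at h
    rw [ha]
    linarith
  have hdeg : ∀ i, pr w X i + pr w Y i = deg w i := by
    intro i
    unfold pr deg
    rw [hX, hY, Finset.sum_filter_add_sum_filter_not]
    rw [Finset.sum_filter]
  have k1 := key hw J X X hXJ
  have k2 := key hw J X Y hXJ
  rw [← ha] at k1 k2
  rw [← hb] at k2
  have ha0 : 0 ≤ a := Finset.sum_nonneg fun S _ => hw.nonneg S
  have hb0 : 0 ≤ 1 - a := by
    rw [hb]
    exact Finset.sum_nonneg fun S _ => hw.nonneg S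
  refine ⟨∑ i ∈ J, pr w X i * pr w X i, by nlinarith [k1], ?_⟩
  have h1 : a * (1 - a) + ∑ i ∈ J, pr w X i * pr w X i ≤ ρ * ∑ i ∈ J, pr w X i := by
    calc a * (1 - a) + ∑ i ∈ J, pr w X i * pr w X i
        ≤ ∑ i ∈ J, pr w X i * pr w Y i + ∑ i ∈ J, pr w X i * pr w X i := by linarith
      _ = ∑ i ∈ J, pr w X i * deg w i := by
          rw [← Finset.sum_add_distrib]
          refine Finset.sum_congr rfl fun i _ => ?_
          rw [← hdeg i]
          ring
      _ ≤ ∑ i ∈ J, pr w X i * ρ :=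
          Finset.sum_le_sum fun i _ => mul_le_mul_of_nonneg_left (hw.deg_le i) (pr_nonneg hw X i)
      _ = ρ * ∑ i ∈ J, pr w X i := by rw [← Finset.sum_mul, mul_comm]
  have h0 : 0 ≤ a * (1 - a) + ∑ i ∈ J, pr w X i * pr w X i :=
    add_nonneg (mul_nonneg ha0 hb0)
      (Finset.sum_nonneg fun i _ => mul_nonneg (pr_nonneg hw X i) (pr_nonneg hw X i))
  have h2 : (∑ i ∈ J, pr w X i) ^ 2 ≤ (J.card : ℚ) * ∑ i ∈ J, pr w X i * pr w X i := by
    have h := sq_sum_le_card_mul_sum_sq (s := J) (f := fun i => pr w X i)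
    simp only [pow_two] at h ⊢
    exact h
  calc (a * (1 - a) + ∑ i ∈ J, pr w X i * pr w X i) ^ 2
      ≤ (ρ * ∑ i ∈ J, pr w X i) ^ 2 := by gcongr
    _ = ρ ^ 2 * (∑ i ∈ J, pr w X i) ^ 2 := by ring
    _ ≤ ρ ^ 2 * ((J.card : ℚ) * ∑ i ∈ J, pr w X i * pr w X i) := by gcongr
    _ = (J.card : ℚ) * ρ ^ 2 * ∑ i ∈ J, pr w X i * pr w X i := by ring

end R14.MC.P
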