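import Pool.Agent.R14.MC.Defs

set_option autoImplicit false

/-! Project MC, piece R: stars of the complete graph -/

namespace R14.MC.R

open R14.MC Finset

theorem cnt {α : Type} [DecidableEq α] (N : Finset α) (u : α) (hu : u ∈ N) :
    ((N.powersetCard 2).filter (fun S => u ∈ S)).card = N.card - 1 := by
  have h0 : (N.erase u).card = N.card - 1 := card_erase_of_mem hu
  rw [← h0]
  symm
  refine card_bij (fun v _ => {u, v}) ?_ ?_ ?_
  · intro v hv
    rw [mem_erase] at hv
    rw [mem_filter, mem_powersetCard]
    refine ⟨⟨?_, card_pair hv.1.symm⟩, mem_insert_self _ _⟩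
    intro z hz
    rw [mem_insert, mem_singleton] at hz
    rcases hz with h | h
    · rw [h]; exact hu
    · rw [h]; exact hv.2
  · intro v hv w hw h
    rw [mem_erase] at hv hw
    have h1 : v ∈ ({u, w} : Finset α) := by rw [← h]; simp
    rw [mem_insert, mem_singleton] at h1
    rcases h1 with h2 | h2
    · exact absurd h2 hv.1
    · exact h2
  · intro S hS
    rw [mem_filter, mem_powersetCard] at hS
    obtain ⟨⟨h1, h2⟩, h3⟩ := hS
    obtain ⟨p, q, hpq, hS⟩ := card_eq_two.1 h2
    subst hS
    rw [mem_insert, mem_singleton] at h3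
    rcases h3 with h | h
    · subst h
      exact ⟨q, mem_erase.2 ⟨hpq.symm, h1 (by simp)⟩, rfl⟩
    · subst h
      exact ⟨p, mem_erase.2 ⟨hpq, h1 (by simp)⟩, pair_comm _ _⟩

theorem main : StmR := by
  intro d t E ht hE
  set A := (univ : Finset (Fin t)).powersetCard 2 with hA
  have hAc : A.card ≤ E.card := by
    rw [hA, card_powersetCard, card_univ, Fintype.card_fin, Nat.choose_two_right]
    omega
  have hc : Fintype.card A ≤ Fintype.card E := by
    rw [Fintype.card_coe, Fintype.card_coe]; exact hAc
  obtain ⟨f⟩ := Function.Embedding.nonempty_of_card_le hc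
  have hinj : Function.Injective (fun p : A => (f p : Fin d)) :=
    Subtype.val_injective.comp f.injective
  refine ⟨fun u => (A.attach.filter (fun p => u ∈ p.1)).image (fun p => (f p : Fin d)),
    ?_, ?_, ?_, ?_⟩
  · intro u i hi
    simp only [mem_image] at hi
    obtain ⟨p, -, rfl⟩ := hi
    exact (f p).2
  · have hne : ∀ u u' : Fin t, u ≠ u' → ((A.attach.filter (fun p => u ∈ p.1)).image
        (fun p => (f p : Fin d)) ∩ (A.attach.filter (fun p => u' ∈ p.1)).image
        (fun p => (f p : Fin d))).Nonempty := by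
      intro u u' h
      have hm : ({u, u'} : Finset (Fin t)) ∈ A := by
        rw [hA, mem_powersetCard]
        exact ⟨subset_univ _, card_pair h⟩
      refine ⟨(f ⟨_, hm⟩ : Fin d), ?_⟩
      rw [mem_inter, mem_image, mem_image]
      exact ⟨⟨⟨_, hm⟩, by simp, rfl⟩, ⟨⟨_, hm⟩, by simp, rfl⟩⟩
    intro u u'
    by_cases h : u = u'
    · subst h
      have : Nontrivial (Fin t) := Fin.nontrivial_iff_two_le.2 ht
      obtain ⟨w, hw⟩ := exists_ne u
      have h1 := hne u w hw.symm
      obtain ⟨i, hi⟩ := h1
      exact ⟨i, mem_inter.2 ⟨(mem_inter.1 hi).1, (mem_inter.1 hi).1⟩⟩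
    · exact hne u u' h
  · intro i
    by_cases h : ∃ p : A, (f p : Fin d) = i
    · obtain ⟨p, rfl⟩ := h
      have h2 : p.1.card = 2 := (mem_powersetCard.1 p.2).2
      rw [← h2]
      refine card_le_card ?_
      intro u hu
      rw [mem_filter, mem_image] at hu
      obtain ⟨-, q, hq, hqp⟩ := hu
      have h3 : q = p := hinj hqp
      subst h3
      exact (mem_filter.1 hq).2
    · have h3 : (univ.filter (fun u => i ∈ (A.attach.filter (fun p => u ∈ p.1)).image
          (fun p => (f p : Fin d)))) = ∅ := by
        rw [filter_eq_empty_iff]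
        intro u _ hu
        rw [mem_image] at hu
        obtain ⟨p, -, hp⟩ := hu
        exact h ⟨p, hp⟩
      rw [h3]; simp
  · intro u
    rw [card_image_of_injective _ hinj]
    have h1 : (A.attach.filter (fun p => u ∈ p.1)).card = (A.filter (fun S => u ∈ S)).card := by
      rw [filter_attach (fun S => u ∈ S), card_map, card_attach]
    rw [h1, hA, cnt _ _ (mem_univ u), card_univ, Fintype.card_fin]

end R14.MC.R
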